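import Pool.Agent.Run7.h340.Bridge

set_option autoImplicit false

/-!
# Unavoidable k-faces of polytopes whose r-faces lie in few facets
-/

namespace Pool.Agent.Results.MP_716236_co.FewFacetsThroughFaces

open Pool.Agent.Helper715 Pool.Agent.Helper715.CP Run7.h340

/-- `P` is an `n`-polytope in the Euclidean space of dimension `n`. -/
def IsPolytope (n : ℕ) (P : Set (EuclideanSpace ℝ (Fin n))) : Prop :=
  (∃ S : Finset (EuclideanSpace ℝ (Fin n)), P = convexHull ℝ (S : Set (EuclideanSpace ℝ (Fin n)))) ∧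
    Module.finrank ℝ (vectorSpan ℝ P) = n

/-- `F` is a nonempty face of `P` of dimension `j`. -/
def IsFace {n : ℕ} (P : Set (EuclideanSpace ℝ (Fin n))) (j : ℕ)
    (F : Set (EuclideanSpace ℝ (Fin n))) : Prop :=
  IsExposed ℝ P F ∧ F.Nonempty ∧ Module.finrank ℝ (vectorSpan ℝ F) = j

/-- the set of all faces, the empty one included -/
def Faces {n : ℕ} (P : Set (EuclideanSpace ℝ (Fin n))) : Set (Set (EuclideanSpace ℝ (Fin n))) :=
  {G | IsExposed ℝ P G}

/-- combinatorial equivalence -/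
def CombEquiv {n l : ℕ} (P : Set (EuclideanSpace ℝ (Fin n)))
    (Q : Set (EuclideanSpace ℝ (Fin l))) : Prop :=
  Nonempty (Faces P ≃o Faces Q)

/-- For all `r`, `c`, `k` there is a finite list of `k`-polytopes such that for every
`d ≥ r + 2 ^ (r + 1) * (k - 2) + 3`, every `d`-polytope in which every `r`-face lies in at most
`d - r + c` facets or in at most `d - r + c` faces of dimension `r + 1` has a `k`-face which is
combinatorially equivalent to a member of the list. -/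
theorem result : ∀ r c k : ℕ, ∃ (m : ℕ) (Q : Fin m → Set (EuclideanSpace ℝ (Fin k))),
    (∀ i, IsPolytope k (Q i)) ∧
    ∀ d : ℕ, r + 2 ^ (r + 1) * (k - 2) + 3 ≤ d →
      ∀ P : Set (EuclideanSpace ℝ (Fin d)), IsPolytope d P →
      (∀ G, IsFace P r G →
        {H | IsFace P (d - 1) H ∧ G ⊆ H}.ncard ≤ d - r + c ∨
        {H | IsFace P (r + 1) H ∧ G ⊆ H}.ncard ≤ d - r + c) →
      ∃ F, IsFace P k F ∧ ∃ i, CombEquiv F (Q i) := by
  classical
  intro r c k
  obtain ⟨m, Q, hQ, hfin⟩ := finite_types k (2 ^ (bnd r c (k - 2) + 2))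
  refine ⟨m, Q, hQ, ?_⟩
  rintro d hd P ⟨⟨S, rfl⟩, hdim⟩ hfac
  have hE : Module.finrank ℝ (EuclideanSpace ℝ (Fin d)) = d := by
    rw [finrank_euclideanSpace, Fintype.card_fin]
  obtain ⟨C, hC⟩ := exists_CP S (span_top_of_finrank S (by omega) (by rw [hdim, hE]))
  have hV : dm C.V = d + 1 := by rw [dm_top, finrank_hm, hE]
  obtain ⟨A, hA, hA1⟩ := exists_few (C := C) (r := r) (c := c) (k := k) hV hd (by
    intro G hG
    rw [mem_fs] at hG
    have h1 := isF_toF hC (k := r) hG.1 hG.2.2.2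
    have h2 := above_ncard hC hG.1 (by omega) (d - 1)
    have h3 := above_ncard hC hG.1 (by omega) (r + 1)
    have e : d - 1 + 1 = d := by omega
    rw [e] at h2
    exact (hfac _ ⟨h1.2.1, h1.1, h1.2.2⟩).imp h2.trans h3.trans)
  rw [mem_fs] at hA
  have hF := isF_toF hC (k := k) hA.1 hA.2.2.2
  refine ⟨toF C S A, ⟨hF.2.1, hF.1, hF.2.2⟩, ?_⟩
  obtain ⟨hf1, hf2⟩ := card_exposed_le hC hF.2.1 hF.1 (N := bnd r c (k - 2) + 2)
    (by rw [toA_toF hC hA.1]; exact hA1)
  have hFe : ∃ T : Finset (EuclideanSpace ℝ (Fin d)),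
      toF C S A = convexHull ℝ (T : Set (EuclideanSpace ℝ (Fin d))) := by
    refine ⟨S.filter (fun s => s ∈ toF C S A), ?_⟩
    conv_lhs => rw [exposed_eq_hull hF.2.1]
    congr 1
    ext s
    simp
  obtain ⟨Q', hQ1, hQ2, ⟨e⟩⟩ := exists_model hF.1 hFe hF.2.2
  haveI := hf1
  obtain ⟨i, ⟨e'⟩⟩ := hfin Q' hQ1 hQ2 (Finite.of_equiv _ e.toEquiv)
    (by rw [← Nat.card_congr e.toEquiv]; exact hf2)
  exact ⟨i, ⟨e.trans e'⟩⟩

end Pool.Agent.Results.MP_716236_co.FewFacetsThroughFaces
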