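import Pool.Agent.Run7.h340.Bridge
import Pool.Agent.Run7.h340.Cert

set_option autoImplicit false

/-!
# Unavoidable 3-faces of polytopes of dimension at least seven
-/

namespace Pool.Agent.Results.MP_716236_co.UnavoidableThreeFaces

open Pool.Agent.Helper715 Pool.Agent.Helper715.CP Run7.h340

/-- `P` is an `n`-polytope in the Euclidean space of dimension `n`. -/
def IsPolytope (n : ℕ) (P : Set (EuclideanSpace ℝ (Fin n))) : Prop :=
  (∃ S : Finset (EuclideanSpace ℝ (Fin n)), P = convexHull ℝ (S : Set (EuclideanSpace ℝ (Fin n)))) ∧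
    Module.finrank ℝ (vectorSpan ℝ P) = n

/-- `F` is a nonempty face of `P` of dimension `j`. -/
def IsFace {n : ℕ} (P : Set (EuclideanSpace ℝ (Fin n))) (j : ℕ)
    (F : Set (EuclideanSpace ℝ (Fin n))) : Prop :=
  IsExposed ℝ P F ∧ F.Nonempty ∧ Module.finrank ℝ (vectorSpan ℝ F) = j

/-- the set of all faces, the empty one included -/
def Faces {n : ℕ} (P : Set (EuclideanSpace ℝ (Fin n))) : Set (Set (EuclideanSpace ℝ (Fin n))) :=
  {G | IsExposed ℝ P G}

/-- combinatorial equivalence -/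
def CombEquiv {n l : ℕ} (P : Set (EuclideanSpace ℝ (Fin n)))
    (Q : Set (EuclideanSpace ℝ (Fin l))) : Prop :=
  Nonempty (Faces P ≃o Faces Q)

/-- There is a finite list of 3-polytopes such that for every `d ≥ 7` every `d`-polytope has a
3-face with at most 96 vertices which is combinatorially equivalent to a member of the list. -/
theorem result : ∃ (m : ℕ) (Q : Fin m → Set (EuclideanSpace ℝ (Fin 3))),
    (∀ i, IsPolytope 3 (Q i)) ∧
    ∀ d : ℕ, 7 ≤ d → ∀ P : Set (EuclideanSpace ℝ (Fin d)), IsPolytope d P →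
      ∃ F, IsFace P 3 F ∧ {v | IsFace P 0 v ∧ v ⊆ F}.encard ≤ 96 ∧ ∃ i, CombEquiv F (Q i) := by
  classical
  obtain ⟨m, Q, hQ, hfin⟩ := finite_types 3 (2 ^ 96)
  refine ⟨m, Q, hQ, ?_⟩
  rintro d hd P ⟨⟨S, rfl⟩, hdim⟩
  have hE : Module.finrank ℝ (EuclideanSpace ℝ (Fin d)) = d := by
    rw [finrank_euclideanSpace, Fintype.card_fin]
  obtain ⟨C, hC⟩ := exists_CP S (span_top_of_finrank S (by omega) (by rw [hdim, hE]))
  have hV : dm C.V = d + 1 := by rw [dm_top, finrank_hm, hE]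
  obtain ⟨B, hB, _, _, dB⟩ := exists_mid (P := C) bot_cl top_cl (bot_le top_cl) (j := 8)
    (by rw [dm_bot]; omega) (by omega)
  obtain ⟨A, hA, hA1⟩ := face_three (P := C) bot_cl hB (bot_le hB) (by rw [dm_bot, dB])
  rw [dm_bot, zero_add] at hA hA1
  rw [mem_fs] at hA
  have hF := isF_toF hC (k := 3) hA.1 hA.2.2.2
  refine ⟨toF C S A, ⟨hF.2.1, hF.1, hF.2.2⟩, ?_, ?_⟩
  · have hsub : {v | IsFace (convexHull ℝ (S : Set (EuclideanSpace ℝ (Fin d)))) 0 v ∧
        v ⊆ toF C S A} ⊆ ((C.fs C.bot A 1).image (toF C S) : Finset _) := by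
      rintro v ⟨⟨h1, h2, h3⟩, h4⟩
      rw [Finset.mem_coe, Finset.mem_image]
      refine ⟨toA C v, ?_, toF_toA hC h1 h2⟩
      have h5 := toA_cl hC h1 h2
      have h6 := dm_toA hC h1 h2
      rw [direction_affineSpan, h3] at h6
      have h7 := toA_mono (P := C) hC h4
      rw [toA_toF hC hA.1] at h7
      exact mem_fs.2 ⟨h5, bot_le h5, h7, h6⟩
    refine (Set.encard_le_encard hsub).trans ?_
    rw [Set.encard_coe_eq_coe_finsetCard]
    exact_mod_cast Finset.card_image_le.trans hA1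
  · obtain ⟨hf1, hf2⟩ := card_exposed_le hC hF.2.1 hF.1 (N := 96)
      (by rw [toA_toF hC hA.1]; exact hA1)
    have hFe : ∃ T : Finset (EuclideanSpace ℝ (Fin d)),
        toF C S A = convexHull ℝ (T : Set (EuclideanSpace ℝ (Fin d))) := by
      refine ⟨S.filter (fun s => s ∈ toF C S A), ?_⟩
      conv_lhs => rw [exposed_eq_hull hF.2.1]
      congr 1
      ext s
      simp
    obtain ⟨Q', hQ1, hQ2, ⟨e⟩⟩ := exists_model hF.1 hFe hF.2.2
    haveI := hf1
    obtain ⟨i, ⟨e'⟩⟩ := hfin Q' hQ1 hQ2 (Finite.of_equiv _ e.toEquiv)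
      (by rw [← Nat.card_congr e.toEquiv]; exact hf2)
    exact ⟨i, ⟨e.trans e'⟩⟩

end Pool.Agent.Results.MP_716236_co.UnavoidableThreeFaces
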